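import Mathlib
import Pool.Agent.U73.LC.Stm

/-!
# Project LC (helper73), package SLICE: the `b` for one `a` (helper891)
-/

set_option autoImplicit false

namespace Pool.Agent.U891.LC

open Finset Filter Topology
open Pool.Agent.U73.LC

/-- a residue class in a closed interval -/
theorem closed_im {m : ℕ} (hm : 1 ≤ m) (β : ℤ) (x y : ℝ) :
    {b : ℤ | b ≡ β [ZMOD m] ∧ x ≤ b ∧ (b : ℝ) ≤ y} =
      (fun k : ℤ => β + m * k) '' (Finset.Icc ⌈(x - β) / m⌉ ⌊(y - β) / m⌋ : Finset ℤ) := by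
  have hm0 : (0 : ℝ) < m := by exact_mod_cast hm
  ext b
  simp only [Set.mem_ofPred_eq, Set.mem_image, Finset.mem_coe, Finset.mem_Icc, Int.ceil_le,
    Int.le_floor, div_le_iff₀ hm0, le_div_iff₀ hm0]
  constructor
  · rintro ⟨h1, h2, h3⟩
    obtain ⟨k, hk⟩ := (Int.modEq_iff_add_fac).1 h1.symm
    refine ⟨k, ⟨?_, ?_⟩, hk.symm⟩
    · rw [hk] at h2
      push_cast at h2
      linarith
    · rw [hk] at h3
      push_cast at h3
      linarith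
  · rintro ⟨k, ⟨h2, h3⟩, rfl⟩
    refine ⟨?_, ?_, ?_⟩
    · exact ((Int.modEq_iff_add_fac).2 ⟨k, rfl⟩).symm
    · push_cast
      linarith
    · push_cast
      linarith

/-- a residue class in an open interval -/
theorem open_im {m : ℕ} (hm : 1 ≤ m) (β : ℤ) (x y : ℝ) :
    {b : ℤ | b ≡ β [ZMOD m] ∧ x < b ∧ (b : ℝ) < y} =
      (fun k : ℤ => β + m * k) '' (Finset.Ioo ⌊(x - β) / m⌋ ⌈(y - β) / m⌉ : Finset ℤ) := by
  have hm0 : (0 : ℝ) < m := by exact_mod_cast hm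
  ext b
  simp only [Set.mem_ofPred_eq, Set.mem_image, Finset.mem_coe, Finset.mem_Ioo, Int.floor_lt,
    Int.lt_ceil, div_lt_iff₀ hm0, lt_div_iff₀ hm0]
  constructor
  · rintro ⟨h1, h2, h3⟩
    obtain ⟨k, hk⟩ := (Int.modEq_iff_add_fac).1 h1.symm
    refine ⟨k, ⟨?_, ?_⟩, hk.symm⟩
    · rw [hk] at h2
      push_cast at h2
      linarith
    · rw [hk] at h3
      push_cast at h3
      linarith
  · rintro ⟨k, ⟨h2, h3⟩, rfl⟩
    refine ⟨?_, ?_, ?_⟩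
    · exact ((Int.modEq_iff_add_fac).2 ⟨k, rfl⟩).symm
    · push_cast
      linarith
    · push_cast
      linarith

theorem inj {m : ℕ} (hm : 1 ≤ m) (β : ℤ) : Function.Injective fun k : ℤ => β + m * k := by
  intro k l h
  have hm0 : (m : ℤ) ≠ 0 := by exact_mod_cast (by omega : m ≠ 0)
  have h1 : (m : ℤ) * k = m * l := by
    have h2 : β + m * k = β + m * l := h
    linarith
  exact mul_left_cancel₀ hm0 h1

theorem closed_card {m : ℕ} (hm : 1 ≤ m) (β : ℤ) {x y : ℝ} (hxy : x ≤ y) :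
    {b : ℤ | b ≡ β [ZMOD m] ∧ x ≤ b ∧ (b : ℝ) ≤ y}.Finite ∧
    (({b : ℤ | b ≡ β [ZMOD m] ∧ x ≤ b ∧ (b : ℝ) ≤ y}.ncard : ℕ) : ℝ) ≤ (y - x) / m + 1 := by
  have hm0 : (0 : ℝ) < m := by exact_mod_cast hm
  rw [closed_im hm]
  refine ⟨(Finset.finite_toSet _).image _, ?_⟩
  rw [Set.ncard_image_of_injective _ (inj hm β), Set.ncard_coe_finset, Int.card_Icc]
  have h1 := Int.floor_le ((y - β) / m)
  have h2 := Int.le_ceil ((x - β) / m)
  have h3 : (y - β) / m - (x - β) / m = (y - x) / m := by ring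
  have h4 : 0 ≤ (y - x) / m := div_nonneg (by linarith) hm0.le
  rcases le_total 0 (⌊(y - β) / m⌋ + 1 - ⌈(x - β) / m⌉) with h5 | h5
  · have h6 : (((⌊(y - β) / m⌋ + 1 - ⌈(x - β) / m⌉).toNat : ℕ) : ℝ) =
        ((⌊(y - β) / m⌋ + 1 - ⌈(x - β) / m⌉ : ℤ) : ℝ) := by
      have := Int.toNat_of_nonneg h5
      exact_mod_cast this
    rw [h6]
    push_cast
    linarith
  · rw [Int.toNat_of_nonpos h5]
    push_cast
    linarith

theorem open_card {m : ℕ} (hm : 1 ≤ m) (β : ℤ) (x y : ℝ) :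
    {b : ℤ | b ≡ β [ZMOD m] ∧ x < b ∧ (b : ℝ) < y}.Finite ∧
    (y - x) / m - 1 ≤ (({b : ℤ | b ≡ β [ZMOD m] ∧ x < b ∧ (b : ℝ) < y}.ncard : ℕ) : ℝ) := by
  rw [open_im hm]
  refine ⟨(Finset.finite_toSet _).image _, ?_⟩
  rw [Set.ncard_image_of_injective _ (inj hm β), Set.ncard_coe_finset, Int.card_Ioo]
  have h1 := Int.le_ceil ((y - β) / m)
  have h2 := Int.floor_le ((x - β) / m)
  have h3 : (y - β) / m - (x - β) / m = (y - x) / m := by ring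
  have h4 := Int.self_le_toNat (⌈(y - β) / m⌉ - ⌊(x - β) / m⌋ - 1)
  have h5 : ((⌈(y - β) / m⌉ - ⌊(x - β) / m⌋ - 1 : ℤ) : ℝ) ≤
      (((⌈(y - β) / m⌉ - ⌊(x - β) / m⌋ - 1).toNat : ℕ) : ℝ) := by exact_mod_cast h4
  refine le_trans ?_ h5
  push_cast
  linarith

/-- a residue class in a symmetric pair of intervals -/
theorem pair_card {m : ℕ} (hm : 1 ≤ m) (β : ℤ) {L U : ℝ} (hL : 0 ≤ L) (hLU : L ≤ U) {P : ℤ → Prop}
    (h1 : ∀ b : ℤ, L < |(b : ℝ)| → |(b : ℝ)| < U → P b)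
    (h2 : ∀ b : ℤ, P b → L ≤ |(b : ℝ)| ∧ |(b : ℝ)| ≤ U) :
    {b : ℤ | b ≡ β [ZMOD m] ∧ P b}.Finite ∧
    |(({b : ℤ | b ≡ β [ZMOD m] ∧ P b}.ncard : ℕ) : ℝ) - 2 * (U - L) / m| ≤ 8 := by
  obtain ⟨f1, c1⟩ := closed_card hm β hLU
  obtain ⟨f2, c2⟩ := closed_card hm β (show -U ≤ -L by linarith)
  obtain ⟨f3, c3⟩ := open_card hm β L U
  obtain ⟨f4, c4⟩ := open_card hm β (-U) (-L)
  have hsub : {b : ℤ | b ≡ β [ZMOD m] ∧ P b} ⊆
      {b : ℤ | b ≡ β [ZMOD m] ∧ L ≤ b ∧ (b : ℝ) ≤ U} ∪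
        {b : ℤ | b ≡ β [ZMOD m] ∧ -U ≤ b ∧ (b : ℝ) ≤ -L} := by
    rintro b ⟨hb, hP⟩
    obtain ⟨h3, h4⟩ := h2 b hP
    rcases le_total 0 (b : ℝ) with h0 | h0
    · left
      rw [abs_of_nonneg h0] at h3 h4
      exact ⟨hb, h3, h4⟩
    · right
      rw [abs_of_nonpos h0] at h3 h4
      exact ⟨hb, by linarith, by linarith⟩
  have hfin : {b : ℤ | b ≡ β [ZMOD m] ∧ P b}.Finite := (f1.union f2).subset hsub
  have hsub' : {b : ℤ | b ≡ β [ZMOD m] ∧ L < b ∧ (b : ℝ) < U} ∪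
      {b : ℤ | b ≡ β [ZMOD m] ∧ -U < b ∧ (b : ℝ) < -L} ⊆ {b : ℤ | b ≡ β [ZMOD m] ∧ P b} := by
    rintro b (⟨hb, h3, h4⟩ | ⟨hb, h3, h4⟩)
    · refine ⟨hb, h1 b ?_ ?_⟩
      · rw [abs_of_nonneg (by linarith)]; exact h3
      · rw [abs_of_nonneg (by linarith)]; exact h4
    · refine ⟨hb, h1 b ?_ ?_⟩
      · rw [abs_of_nonpos (by linarith)]; linarith
      · rw [abs_of_nonpos (by linarith)]; linarith
  have hdis : Disjoint {b : ℤ | b ≡ β [ZMOD m] ∧ L < b ∧ (b : ℝ) < U}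
      {b : ℤ | b ≡ β [ZMOD m] ∧ -U < b ∧ (b : ℝ) < -L} := by
    rw [Set.disjoint_left]
    rintro b ⟨_, h3, _⟩ ⟨_, _, h6⟩
    linarith
  refine ⟨hfin, ?_⟩
  have k1 : (({b : ℤ | b ≡ β [ZMOD m] ∧ P b}.ncard : ℕ) : ℝ) ≤ (U - L) / m + 1 + ((-L - -U) / m + 1) := by
    have h3 := Set.ncard_le_ncard hsub (f1.union f2)
    have h4 := Set.ncard_union_le {b : ℤ | b ≡ β [ZMOD m] ∧ L ≤ b ∧ (b : ℝ) ≤ U}
      {b : ℤ | b ≡ β [ZMOD m] ∧ -U ≤ b ∧ (b : ℝ) ≤ -L}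
    have h5 : (({b : ℤ | b ≡ β [ZMOD m] ∧ P b}.ncard : ℕ) : ℝ) ≤
        (({b : ℤ | b ≡ β [ZMOD m] ∧ L ≤ b ∧ (b : ℝ) ≤ U}.ncard : ℕ) : ℝ) +
          (({b : ℤ | b ≡ β [ZMOD m] ∧ -U ≤ b ∧ (b : ℝ) ≤ -L}.ncard : ℕ) : ℝ) := by
      exact_mod_cast h3.trans h4
    linarith
  have k2 : (U - L) / m - 1 + ((-L - -U) / m - 1) ≤
      (({b : ℤ | b ≡ β [ZMOD m] ∧ P b}.ncard : ℕ) : ℝ) := by
    have h3 := Set.ncard_le_ncard hsub' hfin
    rw [Set.ncard_union_eq hdis f3 f4] at h3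
    have h5 : (({b : ℤ | b ≡ β [ZMOD m] ∧ L < b ∧ (b : ℝ) < U}.ncard : ℕ) : ℝ) +
          (({b : ℤ | b ≡ β [ZMOD m] ∧ -U < b ∧ (b : ℝ) < -L}.ncard : ℕ) : ℝ) ≤
        (({b : ℤ | b ≡ β [ZMOD m] ∧ P b}.ncard : ℕ) : ℝ) := by
      exact_mod_cast h3
    linarith
  have e : 2 * (U - L) / m = (U - L) / m + (-L - -U) / m := by ring
  rw [e, abs_le]
  constructor <;> linarith

theorem t_SLICE : S_SLICE := by
  intro s m β a T hm hT
  have hT0 : 0 < T := by linarith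
  have hT3 : T ^ 3 = √(T ^ 6) := by
    rw [show T ^ 6 = (T ^ 3) ^ 2 by ring, Real.sqrt_sq (by positivity)]
  have hsc : ∀ x : ℝ, T ^ 3 * √x = √(T ^ 6 * x) := fun x => by
    rw [hT3, Real.sqrt_mul (by positivity)]
  have ha : T ^ 6 * ((a : ℝ) / T ^ 2) ^ 3 = (a : ℝ) ^ 3 := by
    field_simp
  have hT6 : 0 < T ^ 6 := by positivity
  cases s
  · -- `false`
    have e : T ^ 3 * Ls false (a / T ^ 2) / m =
        2 * (√((a : ℝ) ^ 3 + T ^ 6) - √((a : ℝ) ^ 3)) / m := by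
      have e1 : T ^ 3 * Ls false (a / T ^ 2) =
          2 * (T ^ 3 * √(((a : ℝ) / T ^ 2) ^ 3 + 1) - T ^ 3 * √(((a : ℝ) / T ^ 2) ^ 3)) := by
        unfold Ls
        ring
      rw [e1, hsc, hsc, mul_add, ha, mul_one]
    rw [e]
    refine pair_card hm β (Real.sqrt_nonneg _) (Real.sqrt_le_sqrt (by linarith)) ?_ ?_
    · intro b h1 h2
      have h3 := Real.lt_sq_of_sqrt_lt h1
      rw [sq_abs] at h3
      have h4 := (Real.lt_sqrt (abs_nonneg _)).1 h2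
      rw [sq_abs] at h4
      refine ⟨?_, ?_⟩
      · show a ^ 3 < b ^ 2
        exact_mod_cast h3
      · rw [abs_le]
        constructor <;> linarith
    · rintro b ⟨h1, h2⟩
      have h3 : (a : ℝ) ^ 3 < (b : ℝ) ^ 2 := by
        have h4 : a ^ 3 < b ^ 2 := h1
        exact_mod_cast h4
      rw [abs_le] at h2
      constructor
      · rw [Real.sqrt_le_left (abs_nonneg _), sq_abs]
        exact h3.le
      · refine Real.le_sqrt_of_sq_le ?_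
        rw [sq_abs]
        linarith [h2.1]
  · -- `true`
    have e : T ^ 3 * Ls true (a / T ^ 2) / m =
        2 * (√((a : ℝ) ^ 3) - √((a : ℝ) ^ 3 - T ^ 6)) / m := by
      have e1 : T ^ 3 * Ls true (a / T ^ 2) =
          2 * (T ^ 3 * √(((a : ℝ) / T ^ 2) ^ 3) - T ^ 3 * √(((a : ℝ) / T ^ 2) ^ 3 - 1)) := by
        unfold Ls
        ring
      rw [e1, hsc, hsc, mul_sub (T ^ 6), ha, mul_one]
    rw [e]
    refine pair_card hm β (Real.sqrt_nonneg _) (Real.sqrt_le_sqrt (by linarith)) ?_ ?_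
    · intro b h1 h2
      have h3 := Real.lt_sq_of_sqrt_lt h1
      rw [sq_abs] at h3
      have h4 := (Real.lt_sqrt (abs_nonneg _)).1 h2
      rw [sq_abs] at h4
      refine ⟨?_, ?_⟩
      · show b ^ 2 < a ^ 3
        exact_mod_cast h4
      · rw [abs_le]
        constructor <;> linarith
    · rintro b ⟨h1, h2⟩
      have h3 : (b : ℝ) ^ 2 < (a : ℝ) ^ 3 := by
        have h4 : b ^ 2 < a ^ 3 := h1
        exact_mod_cast h4
      rw [abs_le] at h2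
      constructor
      · rw [Real.sqrt_le_left (abs_nonneg _), sq_abs]
        linarith [h2.2]
      · refine Real.le_sqrt_of_sq_le ?_
        rw [sq_abs]
        exact h3.le

end Pool.Agent.U891.LC
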